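import Pool.Agent.helper19.TQ.All

/-!
# The triviality problem for presentations with one more relator than generators

For all `n ≥ 3` and `m ≥ n + 1` no algorithm decides, for `m` words in the letters
`x_0^{±1}, ..., x_(n-1)^{±1}`, whether the group with generators `x_0, ..., x_(n-1)` and these `m`
relators is trivial. A word is a list of pairs (letter, sign), as in Mathlib's `FreeGroup.mk`;
`ComputablePred` is Mathlib's notion of a decidable predicate. In particular the triviality problem
is undecidable for presentations with `3` generators and `4` relators.
-/

/-- For all `n ≥ 3`, `m ≥ n + 1`: the triviality problem for presentations with `n` generators and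
`m` relators is undecidable. -/
theorem Pool.Agent.Results.MP_1a4948_lc.ThreeGensFourRels.result :
    ∀ n m : ℕ, 3 ≤ n → n + 1 ≤ m →
      ¬ ComputablePred (fun r : Fin m → List (Fin n × Bool) =>
        Subsingleton (PresentedGroup (Set.range fun j => FreeGroup.mk (r j)))) :=
  fun n m hn hm => Pool.Agent.TQ.ALL1 n m hn hm
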